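import Pool.Agent.J4.H48.AW.Final

set_option autoImplicit false

/-!
Seymour's even circuit cover conjecture for almost all weightings of every graph.

Let `G` be a finite graph (loops and parallel edges allowed) with `N` edges. We count, for arbitrary
ranges `1 ≤ p e ≤ M e` of the weights and arbitrary residues `p ≡ z (mod D)`, the weightings `p` in
the cone and in the lattice of the circuits. The share of those which have no circuit cover is at
most `K N (depth(|V|, N) + D) / min M`, where `depth(|V|, N)` is about `sqrt |V|` and `K` is an
absolute constant. For `D = 2`, `z = 0` these are the even weightings of the conjecture, for `D = 1`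
all weightings.

Proof: the weightings at depth `L` inside the cone, `L` about `depth(|V|, N)`, have a circuit cover
(`DepthFromLength`). The cubes of side `D` at the weightings in the cone are compared with the
volume of the polytope of the cone inside the box, and, by a homothety, with the cubes at the
weightings which are deep in the cone. Two-edge cuts force equal weights; the volumes are taken in
the space of the vectors which are constant on the classes of edges forming two-edge cuts.
-/

namespace Pool.Agent.Results.MP_20b97f_co.AlmostAllWeightings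

open Pool.Agent.H126R2.CDC (MGraph)

variable {V E : Type} [Fintype V] [DecidableEq V] [Fintype E] [DecidableEq E]

/-- `p` is a nonnegative real combination of circuits. -/
def InCone (G : MGraph V E) (p : E → ℕ) : Prop :=
  ∃ w : Finset E → ℝ, (∀ C, 0 ≤ w C) ∧ (∀ C, ¬ G.IsCircuit C → w C = 0) ∧
    ∀ e, (p e : ℝ) = ∑ C : Finset E, w C * (if e ∈ C then 1 else 0)

/-- `p` is an integer combination of circuits. -/
def InLattice (G : MGraph V E) (p : E → ℕ) : Prop :=
  (fun e => (p e : ℤ)) ∈ AddSubgroup.closure
    {x : E → ℤ | ∃ C, G.IsCircuit C ∧ x = fun e => if e ∈ C then 1 else 0}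

/-- `(G, p)` has a circuit cover: a multiset of circuits such that every edge `e` lies in exactly
`p e` of them. -/
def HasCover (G : MGraph V E) (p : E → ℕ) : Prop :=
  ∃ F : Multiset (Finset E), (∀ C ∈ F, G.IsCircuit C) ∧ ∀ e, F.countP (fun C => e ∈ C) = p e

/-- The weightings `p` in the cone and in the lattice of the circuits with `1 ≤ p e ≤ M e` and
`p e ≡ z e (mod D)` for every edge `e`. -/
def Weightings (G : MGraph V E) (D : ℕ) (z M : E → ℕ) : Set (E → ℕ) :=
  {p | (∀ e, 1 ≤ p e ∧ p e ≤ M e) ∧ (∀ e, p e % D = z e % D) ∧ InCone G p ∧ InLattice G p}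

/-- About `sqrt l`, up to logarithms of `N`. -/
noncomputable def depth (l N : ℕ) : ℝ :=
  min (Real.sqrt l * (1 + Real.log (1 + N)) ^ (1 / 4 : ℝ))
    (Real.sqrt l + (1 + Real.log l) ^ (3 / 2 : ℝ) * Real.sqrt (Real.log (1 + N)))

/-- There is an absolute constant `K` such that for every finite graph `G`, all upper bounds
`M e ≥ m` for the weights of the edges, all `D ≥ 1` and all residues `z`: the number of the
weightings `p ≡ z (mod D)`, `1 ≤ p ≤ M`, in the cone and the lattice of the circuits without a
circuit cover, multiplied by `m`, is at most `K |E| (depth(|V|, |E|) + D)` times the number of all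
weightings `p ≡ z (mod D)`, `1 ≤ p ≤ M`, in the cone and the lattice of the circuits. -/
theorem result : ∃ K : ℝ, ∀ (V E : Type) [Fintype V] [DecidableEq V] [Fintype E] [DecidableEq E]
    (G : MGraph V E) (D m : ℕ) (z M : E → ℕ), 1 ≤ D → (∀ e, m ≤ M e) →
    (Weightings G D z M).Finite ∧
    (({p ∈ Weightings G D z M | ¬ HasCover G p}.ncard : ℕ) : ℝ) * m ≤
      K * Fintype.card E * (depth (Fintype.card V) (Fintype.card E) + D) *
        ((Weightings G D z M).ncard : ℕ) := by
  refine ⟨4000000000, fun V E _ _ _ _ G D m z M hD hM => ?_⟩
  classical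
  have h1 : Weightings G D z M = ((Pool.Agent.J4.H48.AW.weights G D z M : Finset (E → ℕ)) :
      Set (E → ℕ)) := by
    ext p
    rw [Finset.mem_coe, Pool.Agent.J4.H48.AW.mem_weights]
    rfl
  have h2 : {p ∈ Weightings G D z M | ¬ HasCover G p} =
      (((Pool.Agent.J4.H48.AW.weights G D z M).filter
        (fun p => ¬ Pool.Agent.H126R2.NC.InIntCone G p) : Finset (E → ℕ)) : Set (E → ℕ)) := by
    rw [h1]
    ext p
    simp only [Set.mem_ofPred_eq, Finset.coe_filter, Finset.mem_coe]
    rfl
  refine ⟨by rw [h1]; exact Finset.finite_toSet _, ?_⟩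
  rw [h2, h1, Set.ncard_coe_finset, Set.ncard_coe_finset]
  exact Pool.Agent.J4.H48.AW.bad_le_all G hD z M m hM

end Pool.Agent.Results.MP_20b97f_co.AlmostAllWeightings
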