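import Pool.Agent.J4.H48.CC.Complete

set_option autoImplicit false

/-!
Seymour's even circuit cover conjecture for weightings near a sum of spanning closed trails, for
graphs with `k` edge-disjoint spanning closed trails (ratio `2 k - 1`), and for complete graphs
(ratio `n - 2`).
-/

namespace Pool.Agent.Results.MP_20b97f_co.ClosedTrails

open Pool.Agent.H126R2.CDC (MGraph)
open Pool.Agent.J4.H48.CC (Trail mult)

/-- Let `G` be a finite graph (loops and parallel edges allowed) and let `p` be a weighting of its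
edges by natural numbers. `Trail G Z` says that `Z` is a spanning closed trail of `G` (of each
component of `G`): all degrees in `Z` are even and every vertex set left by an edge of `G` is left
by an edge of `Z`. Then `(G, p)` has a circuit cover in each of the following cases.

* (near a sum) `Z 1, …, Z n` are spanning closed trails, not necessarily different, and, where
  `y e` is the number of those through `e`, `y e ≤ p e ≤ 2 n - y e` and `p e` has the parity of
  `y e` for every edge.
* (disjoint trails) `p` is even, `Z 1, …, Z k` are edge-disjoint spanning closed trails and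
  `m 1, …, m k` are even numbers with sum `M` such that `m i ≤ p e ≤ 2 M - m i` for the edges of
  `Z i` and `p e ≤ 2 M` for all edges.
* (bounded ratio) `p` is even, `G` has `k` edge-disjoint spanning closed trails, and
  `p e ≤ (2 k - 1) p f` for any two edges.
* (complete graphs) `p` is even, any two of the `n` vertices of `G` are adjacent, and
  `p e ≤ (n - 2) p f` for any two edges. -/
theorem result {V E : Type} [Fintype V] [DecidableEq V] [Fintype E] [DecidableEq E]
    (G : MGraph V E) (p : E → ℕ) :
    (∀ (n : ℕ) (Z : Fin n → Finset E), (∀ i, Trail G (Z i)) →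
      (∀ e, mult Z e ≤ p e ∧ p e + mult Z e ≤ 2 * n ∧ Even (p e + mult Z e)) →
      ∃ F : Multiset (Finset E), (∀ C ∈ F, G.IsCircuit C) ∧
        ∀ e, F.countP (fun C => e ∈ C) = p e) ∧
    ((∀ e, Even (p e)) →
      ∀ (k : ℕ) (Z : Fin k → Finset E) (m : Fin k → ℕ), (∀ i, Trail G (Z i)) →
      (∀ i j, i ≠ j → Disjoint (Z i) (Z j)) → (∀ i, Even (m i)) →
      (∀ i, ∀ e ∈ Z i, m i ≤ p e ∧ p e + m i ≤ 2 * ∑ j, m j) → (∀ e, p e ≤ 2 * ∑ j, m j) →
      ∃ F : Multiset (Finset E), (∀ C ∈ F, G.IsCircuit C) ∧
        ∀ e, F.countP (fun C => e ∈ C) = p e) ∧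
    ((∀ e, Even (p e)) →
      ∀ (k : ℕ) (Z : Fin k → Finset E), (∀ i, Trail G (Z i)) →
      (∀ i j, i ≠ j → Disjoint (Z i) (Z j)) → (∀ e f, p e ≤ (2 * k - 1) * p f) →
      ∃ F : Multiset (Finset E), (∀ C ∈ F, G.IsCircuit C) ∧
        ∀ e, F.countP (fun C => e ∈ C) = p e) ∧
    ((∀ e, Even (p e)) → (∀ u v : V, u ≠ v → ∃ e, G.ends e = s(u, v)) →
      (∀ e f, p e ≤ (Fintype.card V - 2) * p f) →
      ∃ F : Multiset (Finset E), (∀ C ∈ F, G.IsCircuit C) ∧
        ∀ e, F.countP (fun C => e ∈ C) = p e) := by
  refine ⟨?_, ?_, ?_, ?_⟩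
  · intro n Z hZ h
    exact Pool.Agent.J4.H48.CC.trails G Z hZ p (fun e => (h e).1)
      (fun e => by rw [Fintype.card_fin]; exact (h e).2.1) (fun e => (h e).2.2)
  · intro hev k Z m hZ hd hm h1 h2
    exact Pool.Agent.J4.H48.CC.disjoint_trails G Z hZ hd m hm p hev h1 h2
  · intro hev k Z hZ hd hr
    exact Pool.Agent.J4.H48.CC.ratio_trails G Z hZ hd p hev hr
  · intro hev hadj hr
    exact Pool.Agent.J4.H48.CC.complete G hadj p hev hr

end Pool.Agent.Results.MP_20b97f_co.ClosedTrails
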