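import Pool.Agent.J4.H48.CC.Depth2

set_option autoImplicit false

/-!
Seymour's even circuit cover conjecture for weightings deep inside the cone of the circuits, with a
depth which decreases with the edge-connectivity.
-/

namespace Pool.Agent.Results.MP_20b97f_co.ConnectedDepth

open Finset
open Pool.Agent.H126R2.CDC (MGraph)
open Pool.Agent.H825R2.EW (cut)

/-- Let `G` be a finite graph with `N` edges (loops and parallel edges allowed) and let `p` be a
weighting of its edges by even natural numbers. `cut G W X` is the set of the edges of `G[W]` with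
one end in `X` and one end outside `X`. Then `(G, p)` has a circuit cover in each of the following
cases.

* (depth) `L ≥ 56 log (2 N)` is real and `y` is a real vector with `L ≤ y ≤ p` such that `p - y`
  lies in the cone of the circuits (no edge of a cut exceeds the sum of the other ones), and, where
  `z = y + (16 log (2 N) / L) p`, every edge `e` lies in a vertex set `W` such that every cut `B` of
  `G[W]` without edges `f` with `z f > 4 z e` has `z`-weight at least `13 z e`.
* (constant depth) `L ≥ 56 log (2 N)`, `p ≥ L`, `p - L` lies in the cone of the circuits, and every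
  edge `e` lies in a vertex set `W` such that every cut of `G[W]` has at least
  `13 + 208 log (2 N) p e / L ^ 2` edges.
* (relative depth) every cut of `G` has at least `K ≥ 26` edges, `m ≤ p ≤ M`, `0 < δ ≤ 1`,
  `(1 + δ) p e ≤ p (B \ e)` for every cut `B` and every `e` in `B`, `112 log (2 N) ≤ δ m` and
  `1664 log (2 N) M ≤ K (δ m) ^ 2`. -/
theorem result {V E : Type} [Fintype V] [DecidableEq V] [Fintype E] [DecidableEq E]
    (G : MGraph V E) (p : E → ℕ) (hev : ∀ e, Even (p e)) :
    (∀ (L : ℝ) (y z : E → ℝ), 56 * Real.log (2 * Fintype.card E) ≤ L →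
      (∀ e, L ≤ y e ∧ y e ≤ p e) →
      (∀ X : Finset V, ∀ e ∈ cut G univ X,
        (p e : ℝ) - y e ≤ ∑ f ∈ (cut G univ X).erase e, ((p f : ℝ) - y f)) →
      (∀ e, z e = y e + 16 * Real.log (2 * Fintype.card E) / L * p e) →
      (∀ e, ∃ W : Finset V, (∀ v ∈ G.ends e, v ∈ W) ∧
        ∀ X ⊆ W, X.Nonempty → X ≠ W → (∀ f ∈ cut G W X, z f ≤ 4 * z e) →
          13 * z e ≤ ∑ f ∈ cut G W X, z f) →
      ∃ F : Multiset (Finset E), (∀ C ∈ F, G.IsCircuit C) ∧
        ∀ e, F.countP (fun C => e ∈ C) = p e) ∧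
    (∀ L : ℝ, 56 * Real.log (2 * Fintype.card E) ≤ L → (∀ e, L ≤ p e) →
      (∀ X : Finset V, ∀ e ∈ cut G univ X,
        (p e : ℝ) - L ≤ ∑ f ∈ (cut G univ X).erase e, ((p f : ℝ) - L)) →
      (∀ e, ∃ W : Finset V, (∀ v ∈ G.ends e, v ∈ W) ∧
        ∀ X ⊆ W, X.Nonempty → X ≠ W →
          13 + 208 * Real.log (2 * Fintype.card E) * p e / L ^ 2 ≤ (cut G W X).card) →
      ∃ F : Multiset (Finset E), (∀ C ∈ F, G.IsCircuit C) ∧
        ∀ e, F.countP (fun C => e ∈ C) = p e) ∧
    (∀ (K m M : ℕ) (δ : ℝ), 0 < δ → δ ≤ 1 → 26 ≤ K →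
      (∀ X : Finset V, X.Nonempty → X ≠ univ → K ≤ (cut G univ X).card) →
      (∀ e, m ≤ p e ∧ p e ≤ M) →
      (∀ X : Finset V, ∀ e ∈ cut G univ X,
        (1 + δ) * p e ≤ ∑ f ∈ (cut G univ X).erase e, (p f : ℝ)) →
      112 * Real.log (2 * Fintype.card E) ≤ δ * m →
      1664 * Real.log (2 * Fintype.card E) * M ≤ K * (δ * m) ^ 2 →
      ∃ F : Multiset (Finset E), (∀ C ∈ F, G.IsCircuit C) ∧
        ∀ e, F.countP (fun C => e ∈ C) = p e) := by
  refine ⟨?_, ?_, ?_⟩
  · intro L y z hL hy hc hz hloc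
    exact Pool.Agent.J4.H48.CC.deepZ G p hev y z L hL (fun e => (hy e).1) hz hloc
      (Pool.Agent.J4.H48.CC.rcone_of_cuts G _ (fun e => sub_nonneg.2 (hy e).2) hc)
  · intro L hL hp hc hloc
    exact Pool.Agent.J4.H48.CC.deepL G p hev L hL hloc
      (Pool.Agent.J4.H48.CC.rcone_of_cuts G _ (fun e => sub_nonneg.2 (hp e)) hc)
  · intro K m M δ h0 h1 hK hcut hp hc h2 h3
    exact Pool.Agent.J4.H48.CC.deepRel G p hev δ h0 h1 K m M hK hcut (fun e => (hp e).1)
      (fun e => (hp e).2) h2 h3 hc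

end Pool.Agent.Results.MP_20b97f_co.ConnectedDepth
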