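import Pool.Agent.J4.H47.HE.Cover

set_option autoImplicit false

/-!
Seymour's even circuit cover conjecture for weightings with heavy edges whose ends are well
connected by lighter edges.
-/

namespace Pool.Agent.Results.MP_20b97f_co.HeavyEdges

open Finset
open Pool.Agent.H126R2.CDC (MGraph)
open Pool.Agent.H126R2.NC (InLat)
open Pool.Agent.H825R2.EW (cut)
open Pool.Agent.J4.H47.HE (bd tot load depth)

/-- There is an absolute constant `K` with the following property. Let `p` be a weighting of the
edges of a finite graph `G` by natural numbers, and let `t e` be further natural numbers. Let every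
edge `e` have a level `lev e ≤ h` and, for each level `s`, a capacity `w s e`, which is `0` unless
`lev e < s` (so only lower edges carry higher ones); `tot h w e` is the sum of its capacities.
Suppose that every edge `e` of level at least one has weight at least `t e + 2 tot h w e`, and that
for every vertex set `X` which is left by an edge of level `s ≥ 1` each edge `e` of level `s` has
weight at most `t e` plus half of the sum of the capacities `w s f` over the edges `f` which leave
`X`. Suppose moreover that one of the following holds.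

* `p` lies in the lattice of the circuits and, for a nonnegative real combination `y` of circuits
  with at most `l` edges and real numbers `m`, `T` with `7 T + 16 l + 91 ≤ 9 m`, or `l ≥ 1` and
  `7 T + K depth(l, |E|) ≤ 9 m`, all edges `e` of level zero satisfy
  `m + 2 tot h w e ≤ p e - load y e ≤ T` and all the others `m ≤ t e - load y e ≤ T`.
* `t = 0`, all weights and capacities are even and, with `q = p - 2 tot h w` on level zero (where
  this is nonnegative), every edge `e` of level zero lies in a vertex set `Y` such that every cut of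
  `G[Y]` all of whose edges `f` of level zero have `q f ≤ p e` has `q`-weight at least `4 p e` on
  level zero.
* `t = 0`, all weights are even, the capacities of the edges of level at least one are even, the
  edges of level zero have weight two, no capacity for the levels above one, and form a subgraph
  with all degrees even, and every vertex set left by an edge of level one is left by at least
  `2 p e + 8` edges of level zero, for each edge `e` of level one.

Then `(G, p)` has a circuit cover. -/
theorem result : ∃ K : ℝ, ∀ (V E : Type) [Fintype V] [DecidableEq V] [Fintype E] [DecidableEq E]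
    (G : MGraph V E) (p t : E → ℕ) (h : ℕ) (lev : E → ℕ) (w : ℕ → E → ℕ),
    (∀ e, lev e ≤ h) → (∀ s f, s ≤ lev f → w s f = 0) →
    (∀ e, 0 < lev e → t e + 2 * tot h w e ≤ p e) →
    (∀ X : Finset V, ∀ e ∈ bd G X, 0 < lev e → ∀ e', lev e' = lev e →
      2 * p e' ≤ 2 * t e' + ∑ f ∈ bd G X, w (lev e) f) →
    ((InLat G p ∧ ∃ (l : ℕ) (y : Finset E → ℝ) (m T : ℝ), (∀ C, 0 ≤ y C) ∧
        (∀ C, y C ≠ 0 → G.IsCircuit C ∧ C.card ≤ l) ∧
        (7 * T + 16 * l + 91 ≤ 9 * m ∨
          (1 ≤ l ∧ 7 * T + K * depth l (Fintype.card E) ≤ 9 * m)) ∧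
        (∀ e, lev e = 0 → m + 2 * (tot h w e : ℝ) + load y e ≤ p e ∧
          (p e : ℝ) ≤ T + load y e) ∧
        ∀ e, 0 < lev e → m + load y e ≤ t e ∧ (t e : ℝ) ≤ T + load y e) ∨
      ((∀ e, t e = 0) ∧ (∀ e, Even (p e)) ∧ (∀ s f, Even (w s f)) ∧
        ∀ e, lev e = 0 → 2 * tot h w e ≤ p e ∧
          ∃ Y : Finset V, (∀ x ∈ G.ends e, x ∈ Y) ∧ ∀ X ⊆ Y, X.Nonempty → X ≠ Y →
            (∀ f ∈ cut G Y X, lev f = 0 → p f - 2 * tot h w f ≤ p e) →
            4 * p e ≤ ∑ f ∈ (cut G Y X).filter (fun f => lev f = 0), (p f - 2 * tot h w f)) ∨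
      ((∀ e, t e = 0) ∧ (∀ e, Even (p e)) ∧ (∀ s f, 0 < lev f → Even (w s f)) ∧
        (∀ e, lev e = 0 → p e = 2 ∧ ∀ s, 1 < s → w s e = 0) ∧
        (∀ x, Even (G.deg (univ.filter (fun e => lev e = 0)) x)) ∧
        ∀ X : Finset V, ∀ e ∈ bd G X, lev e = 1 → ∀ e', lev e' = 1 →
          2 * p e' + 8 ≤ ((bd G X).filter (fun f => lev f = 0)).card)) →
    ∃ F : Multiset (Finset E), (∀ C ∈ F, G.IsCircuit C) ∧
      ∀ e, F.countP (fun C => e ∈ C) = p e :=
  ⟨1200000000, fun _ _ _ _ _ _ G p t h lev w hlev hw hheavy hcut hbase =>
    Pool.Agent.J4.H47.HE.heavy G p t h lev w hlev hw hheavy hcut hbase⟩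

end Pool.Agent.Results.MP_20b97f_co.HeavyEdges
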